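import Pool.Agent.H52.FT.Targets
import Pool.Agent.H41.SuperSeq.Final

/-!
# Shortest words containing all permutations: modules FF, IND, FIN, TR
-/

namespace Pool.Agent.H54.FT

open Pool.Agent.H52.FT

section

variable {α : Type} [DecidableEq α]

theorem FB.mono {A e e' X X' : ℕ} (h : FB α A e X) (he : e ≤ e') (hX : X' ≤ X) :
    FB α A e' X' := by
  intro S w k h1 h2 h3
  have h4 := h S w k (h1.trans hX) h2 h3
  have h5 : k * e ≤ k * e' := Nat.mul_le_mul_left k he
  omega

end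

/-- FF -/
theorem ff (h : T_FS) : T_FF := by
  intro α _ i
  induction i with
  | zero =>
    intro S w k h1 h2 _
    simp only [pow_zero] at h1
    have h3 : k ≤ 1 := by omega
    have h4 : k * S.card ≤ k * 1 := Nat.mul_le_mul_left k h1
    omega
  | succ i ih =>
    have hA : 7 * i + 1 ≤ 4 * i ^ 2 + 3 + 1 := by
      rcases Nat.eq_zero_or_pos i with rfl | hi
      · norm_num
      · obtain ⟨j, rfl⟩ : ∃ j, i = j + 1 := ⟨i - 1, by omega⟩
        nlinarith
    have h1 := h α (7 * i + 1) (4 * i ^ 2 + 3) (8 ^ i) (by omega) hA ih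
    have e1 : 7 * (i + 1) + 1 = 7 * i + 1 + 7 := by ring
    rw [e1]
    refine FB.mono h1 (by nlinarith) ?_
    rw [pow_succ, mul_comm]
    exact Nat.mul_le_mul_right _ (by omega)

/-- IND -/
theorem ind (h1 : T_FF) (h2 : T_STEP) (h3 : T_NUM) (h4 : T_TR) : T_IND := by
  intro α _ i
  set W : ℝ := 32000000000 * (4 * (i : ℝ) ^ 2 + 7 * i + 4) with hW
  have hW0 : 0 < W := by positivity
  set s : ℝ := W ^ ((1 : ℝ) / 3) with hs
  have hs0 : 0 < s := Real.rpow_pos_of_pos hW0 _
  have hs3 : s ^ 3 = W := by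
    rw [hs, ← Real.rpow_natCast, ← Real.rpow_mul hW0.le]
    norm_num
  have hC : W ^ ((2 : ℝ) / 3) = s ^ 2 := by
    rw [hs, ← Real.rpow_natCast, ← Real.rpow_mul hW0.le]
    norm_num
  rw [hC]
  intro S
  induction S using Finset.strongInduction with
  | H S ih =>
  intro w hcard hU
  rcases Nat.eq_zero_or_pos S.card with h0 | hpos
  · rw [h0]
    have e0 : ((0 : ℕ) : ℝ) ^ ((4 : ℝ) / 3) = 0 := by
      rw [Nat.cast_zero, Real.zero_rpow (by norm_num)]
    rw [e0]
    have : (0 : ℝ) ≤ (tot S w : ℝ) := Nat.cast_nonneg _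
    simpa using this
  set n : ℝ := (S.card : ℝ) with hn
  have hn1 : 1 ≤ n := by rw [hn]; exact_mod_cast hpos
  have hn0 : 0 < n := by linarith
  set t : ℝ := n ^ ((1 : ℝ) / 3) with ht
  have ht0 : 0 < t := Real.rpow_pos_of_pos hn0 _
  have ht3 : t ^ 3 = n := by
    rw [ht, ← Real.rpow_natCast, ← Real.rpow_mul hn0.le]
    norm_num
  have hn43 : n ^ ((4 : ℝ) / 3) = t ^ 4 := by
    rw [ht, ← Real.rpow_natCast, ← Real.rpow_mul hn0.le]
    norm_num
  have hn32 : n ^ ((3 : ℝ) / 2) = t ^ 4 * Real.sqrt t := by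
    rw [← ht3, Real.sqrt_eq_rpow, ← Real.rpow_natCast, ← Real.rpow_natCast, ← Real.rpow_mul ht0.le,
      ← Real.rpow_add ht0]
    norm_num
  have hih : IH4 α S (s ^ 2) := by
    intro T hT w' hU'
    exact ih T hT w' ((Finset.card_le_card hT.subset).trans hcard) hU'
  rcases le_or_gt (s ^ 4) (25600 * t) with hc | hc
  · set lam : ℝ := s ^ 2 * t with hlam
    set J : ℝ := 4 * √(288 * n / lam) + 8 with hJ
    have hAe : 32000000000 * (((7 * i + 1 : ℕ) : ℝ) + ((4 * i ^ 2 + 3 : ℕ) : ℝ)) ≤ s ^ 3 := by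
      rw [hs3, hW]
      push_cast
      apply le_of_eq
      ring
    obtain ⟨g1, g2, g3, κ, g4, g5⟩ := h3 (7 * i + 1) (4 * i ^ 2 + 3) s t lam n J (by omega) hs0
      hAe hc hlam ht3.symm hJ
    exact h2 α (7 * i + 1) (4 * i ^ 2 + 3) S (s ^ 2) n lam J κ w
      (FB.mono (h1 α i) le_rfl hcard) (by omega) hih hn hlam hJ g1 g2 g3 g4 g5 hU
  · have h5 := h4 α S w hU
    rw [← hn, hn32] at h5
    rw [hn43]
    have h6 : Real.sqrt t ≤ s ^ 2 / 160 := by
      rw [Real.sqrt_le_left (by positivity)]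
      nlinarith
    have h7 : 160 * (t ^ 4 * Real.sqrt t) ≤ s ^ 2 * t ^ 4 := by
      have h8 : t ^ 4 * Real.sqrt t ≤ t ^ 4 * (s ^ 2 / 160) :=
        mul_le_mul_of_nonneg_left h6 (by positivity)
      linarith
    linarith

/-- FIN -/
theorem fin (h : T_IND) : T_FIN := by
  intro α _ S w hS hU
  set i : ℕ := Nat.clog 8 S.card with hi
  have h1 : S.card ≤ 8 ^ i := Nat.le_pow_clog (by norm_num) _
  have h2 := h α i S w h1 hU
  set n : ℝ := (S.card : ℝ) with hn
  have hn1 : 1 ≤ n := by rw [hn]; exact_mod_cast hS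
  have hlog : 0 ≤ Real.log n := Real.log_nonneg hn1
  set T : ℝ := 1 + Real.log n with hT
  have hT1 : 1 ≤ T := by linarith
  have hiT : (i : ℝ) ≤ T := by
    rcases Nat.lt_or_ge 1 S.card with hc | hc
    · have h3 : 8 ^ (i - 1) < S.card := Nat.pow_pred_clog_lt_self (by norm_num) hc
      have h4 : ((8 : ℝ)) ^ (i - 1) ≤ n := by
        rw [hn]; exact_mod_cast h3.le
      have h5 : ((i - 1 : ℕ) : ℝ) * Real.log 8 ≤ Real.log n := by
        rw [← Real.log_pow]
        exact Real.log_le_log (by positivity) h4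
      have h6 : (1 : ℝ) ≤ Real.log 8 := by
        rw [Real.le_log_iff_exp_le (by norm_num)]
        exact (lt_trans Real.exp_one_lt_d9 (by norm_num)).le
      have h7 : (i : ℝ) - 1 ≤ ((i - 1 : ℕ) : ℝ) := by
        have : i ≤ (i - 1) + 1 := by omega
        have h8 : (i : ℝ) ≤ (((i - 1) + 1 : ℕ) : ℝ) := by exact_mod_cast this
        push_cast at h8
        linarith
      have h9 : (0 : ℝ) ≤ ((i - 1 : ℕ) : ℝ) := by positivity
      nlinarith
    · have h3 : S.card = 1 := by omega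
      have h4 : i = 0 := by rw [hi, h3]; exact Nat.clog_one_right 8
      rw [h4]
      simp only [Nat.cast_zero]
      linarith
  have hi0 : (0 : ℝ) ≤ i := by positivity
  have hW : 32000000000 * (4 * (i : ℝ) ^ 2 + 7 * i + 4) ≤ 480000000000 * T ^ 2 := by
    have : (i : ℝ) ^ 2 ≤ T ^ 2 := pow_le_pow_left₀ hi0 hiT 2
    nlinarith
  have hA : (32000000000 * (4 * (i : ℝ) ^ 2 + 7 * i + 4)) ^ ((2 : ℝ) / 3) ≤
      10 ^ 8 * T ^ ((4 : ℝ) / 3) := by
    refine (Real.rpow_le_rpow (by positivity) hW (by norm_num)).trans ?_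
    rw [Real.mul_rpow (by norm_num) (by positivity)]
    have e1 : (T ^ 2) ^ ((2 : ℝ) / 3) = T ^ ((4 : ℝ) / 3) := by
      rw [← Real.rpow_natCast, ← Real.rpow_mul (by linarith)]
      norm_num
    rw [e1]
    refine mul_le_mul_of_nonneg_right ?_ (by positivity)
    have e2 : (480000000000 : ℝ) ^ ((2 : ℝ) / 3) = (480000000000 ^ 2) ^ ((1 : ℝ) / 3) := by
      rw [← Real.rpow_natCast, ← Real.rpow_mul (by norm_num)]
      norm_num
    have e3 : (10 : ℝ) ^ 8 = ((10 : ℝ) ^ 24) ^ ((1 : ℝ) / 3) := by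
      rw [← Real.rpow_natCast, ← Real.rpow_natCast, ← Real.rpow_mul (by norm_num)]
      norm_num
    rw [e2, e3]
    exact Real.rpow_le_rpow (by norm_num) (by norm_num) (by norm_num)
  have hB : (32000000000 * (4 * (i : ℝ) ^ 2 + 7 * i + 4)) ^ ((2 : ℝ) / 3) *
      n ^ ((4 : ℝ) / 3) ≤ 10 ^ 8 * (n * T) ^ ((4 : ℝ) / 3) := by
    rw [Real.mul_rpow (x := n) (y := T) (by linarith) (by linarith)]
    calc _ ≤ (10 ^ 8 * T ^ ((4 : ℝ) / 3)) * n ^ ((4 : ℝ) / 3) :=
          mul_le_mul_of_nonneg_right hA (by positivity)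
      _ = 10 ^ 8 * (n ^ ((4 : ℝ) / 3) * T ^ ((4 : ℝ) / 3)) := by ring
  linarith

/-- TR -/
theorem tr : T_TR := by
  intro α _ S w hU
  obtain ⟨e⟩ : Nonempty (S ≃ Fin S.card) := ⟨S.equivFin⟩
  set f : α → Option (Fin S.card) := fun a => if h : a ∈ S then some (e ⟨a, h⟩) else none with hf
  have hlen : ∀ w : List α, (w.filterMap f).length = tot S w := by
    intro w
    induction w with
    | nil => simp [tot]
    | cons a w ih =>
      have h1 : tot S (a :: w) = tot S w + if a ∈ S then 1 else 0 := by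
        unfold tot
        simp only [List.count_cons, Finset.sum_add_distrib]
        congr 1
        by_cases ha : a ∈ S
        · rw [if_pos ha, Finset.sum_eq_single_of_mem a ha]
          · simp
          · intro b _ hb
            simp [Ne.symm hb]
        · rw [if_neg ha]
          refine Finset.sum_eq_zero (fun b hb => ?_)
          have : a ≠ b := fun h => ha (h ▸ hb)
          simp [this]
      rw [h1]
      by_cases ha : a ∈ S
      · have h2 : f a = some (e ⟨a, ha⟩) := by rw [hf]; simp [ha]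
        rw [List.filterMap_cons_some h2, List.length_cons, ih, if_pos ha]
      · have h2 : f a = none := by rw [hf]; simp [ha]
        rw [List.filterMap_cons_none h2, ih, if_neg ha, add_zero]
  rw [← hlen w]
  set w' := w.filterMap f with hw'
  have hsub : ∀ τ : List (Fin S.card), τ.Nodup → τ.Sublist w' := by
    intro τ hτ
    have h1 : Wd S (τ.map (fun i => ((e.symm i : S) : α))) := by
      refine ⟨?_, ?_⟩
      · refine hτ.map ?_
        intro i j hij
        exact e.symm.injective (Subtype.ext hij)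
      · intro z hz
        obtain ⟨i, _, rfl⟩ := List.mem_map.1 hz
        exact (e.symm i).2
    have h2 := (hU _ h1).filterMap f
    rw [List.filterMap_map] at h2
    have h3 : f ∘ (fun i => ((e.symm i : S) : α)) = some := by
      funext i
      simp only [Function.comp_apply, hf]
      rw [dif_pos (e.symm i).2]
      simp
    rw [h3, List.filterMap_some] at h2
    exact h2
  have hn0 : (0 : ℝ) ≤ (S.card : ℝ) := Nat.cast_nonneg _
  set s := Real.sqrt (S.card : ℝ) with hs
  have hs0 : 0 ≤ s := Real.sqrt_nonneg _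
  have hs2 : s ^ 2 = (S.card : ℝ) := Real.sq_sqrt hn0
  have h32 : (S.card : ℝ) ^ ((3 : ℝ) / 2) = s ^ 3 := by
    rw [hs, Real.sqrt_eq_rpow, ← Real.rpow_natCast, ← Real.rpow_mul hn0]
    norm_num
  have h2 : (S.card : ℝ) ^ 2 = s ^ 4 := by rw [← hs2]; ring
  rw [h32, h2]
  rcases le_or_gt s 160 with hc | hc
  · have h3 : s ^ 4 ≤ 160 * s ^ 3 := by nlinarith [pow_nonneg hs0 3]
    have h4 : (0 : ℝ) ≤ (w'.length : ℝ) := Nat.cast_nonneg _
    linarith
  · apply H41.SuperSeq.main w' _ s hc hs2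
    intro τ hτ _
    apply H41.SuperSeq.run_le_of_sublist w' τ 0 (Nat.zero_le _)
    rw [List.drop_zero]
    exact hsub τ hτ

end Pool.Agent.H54.FT

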